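import Pool.Agent.Lib.MP_dfab40_lc.S2.Union2

/-!
`RCA₀ + RT²₂ + Σ⁰₂-Subset + Σ⁰₁-separation`, and so each of its subtheories such as `RCA₀ + RT²₂`,
proves no `Π¹₁` statement beyond those of `RCA₀ + BΣ⁰₂`.
-/

namespace Pool.Agent.Results.MP_dfab40_lc.ConservativeSubset

open Pool.Agent.Lib.MP_dfab40_lc

theorem result (T : Set Fm) (hT : T ⊆ RCA0 ∪ {RT22} ∪ Subset2 ∪ Sep1) (θ : Fm) (hθ : θ.Arith)
    (h : Prv T [] θ.allS) : Prv (RCA0 ∪ BSigma2) [] θ.allS :=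
  S2.conservative3 hθ (S2.prv_mono hT h)

end Pool.Agent.Results.MP_dfab40_lc.ConservativeSubset
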